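import Pool.Agent.T9h89.GF.Pol

/-!
# Polarisation on multisets
-/

set_option autoImplicit false

namespace Pool.Agent.T9h89.GF

open Finset
open Pool.Agent.T9h42.GF

section A

variable {V : Type} [AddCommGroup V] {m : ℕ}

theorem dl_perm (f : V → ℚ) {L L' : List V} (h : L.Perm L') : ∀ x, dl f L x = dl f L' x := by
  induction h with
  | nil => intro x; rfl
  | cons a _ ih => intro x; rw [dl_cons, dl_cons, ih, ih]
  | swap a b L => intro x; simp only [dl_cons]; rw [add_right_comm]; ring
  | trans _ _ ih1 ih2 => intro x; rw [ih1, ih2]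

/-- the polarisation -/
def SM (f : V → ℚ) (M : Multiset V) : ℚ :=
  Quot.liftOn M (fun L => dl f L 0) (fun _ _ h => dl_perm f h 0)

theorem SM_coe (f : V → ℚ) (L : List V) : SM f (L : Multiset V) = dl f L 0 := rfl

theorem SM_add (f : V → ℚ) (hf : ∀ (L : List V) (x : V), L.length = m + 2 → dl f L x = 0)
    (M : Multiset V) (hM : M.card = m) (a b : V) :
    SM f ((a + b) ::ₘ M) = SM f (a ::ₘ M) + SM f (b ::ₘ M) := by
  induction M using Quot.inductionOn with
  | _ L =>
    have h1 := hf (a :: b :: L) 0 (by
      have : L.length = m := hM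
      simp [this])
    show dl f ((a + b) :: L) 0 = dl f (a :: L) 0 + dl f (b :: L) 0
    simp only [dl_cons, zero_add] at h1 ⊢
    linarith

/-- the polarisation as a function of one of the arguments -/
def SH (f : V → ℚ) (hf : ∀ (L : List V) (x : V), L.length = m + 2 → dl f L x = 0)
    (M : Multiset V) (hM : M.card = m) : V →+ ℚ :=
  AddMonoidHom.mk' (fun a => SM f (a ::ₘ M)) (fun a b => SM_add f hf M hM a b)

theorem SH_apply (f : V → ℚ) (hf : ∀ (L : List V) (x : V), L.length = m + 2 → dl f L x = 0)
    (M : Multiset V) (hM : M.card = m) (a : V) : SH f hf M hM a = SM f (a ::ₘ M) := rfl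

/-- linear dependence on the function -/
theorem dl_smul_fun (f g : V → ℚ) (L : List V) (x : V) (h : ∀ w, f w = g w) :
    dl f L x = dl g L x := by
  have : f = g := funext h
  rw [this]

theorem dl_zero_fun (L : List V) (x : V) : dl (fun _ => (0 : ℚ)) L x = 0 := by
  induction L generalizing x with
  | nil => rfl
  | cons a L ih => rw [dl_cons, ih, ih, sub_zero]

/-- the `n`-fold difference of the diagonal of an `n`-linear map -/
theorem dl_fact (n : ℕ) : ∀ (Q : MultilinearMap ℤ (fun _ : Fin n => V) ℚ) (a x : V),
    dl (fun w => Q (fun _ => w)) (List.replicate n a) x = (n.factorial : ℚ) * Q (fun _ => a) := by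
  classical
  induction n with
  | zero =>
    intro Q a x
    show Q (fun _ => x) = _
    rw [Nat.factorial_zero, Nat.cast_one, one_mul]
    congr 1
    funext i; exact i.elim0
  | succ n ih =>
    intro Q a x
    rw [List.replicate_succ, dl_cons']
    have h1 : (fun w : V => Q (fun _ => w + a) - Q (fun _ => w)) =
        fun w => ∑ s ∈ (univ : Finset (Finset (Fin (n + 1)))).erase univ,
          Q (s.piecewise (fun _ => w) (fun _ => a)) := by
      funext w
      have h2 : Q (fun _ => w + a) = ∑ s : Finset (Fin (n + 1)),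
          Q (s.piecewise (fun _ => w) (fun _ => a)) :=
        Q.map_add_univ (fun _ => w) (fun _ => a)
      rw [h2, ← Finset.add_sum_erase _ _ (Finset.mem_univ (univ : Finset (Fin (n + 1))))]
      have h3 : (univ : Finset (Fin (n + 1))).piecewise (fun _ => w) (fun _ => a) =
          fun _ : Fin (n + 1) => w := by
        funext j; simp
      rw [h3, add_sub_cancel_left]
    rw [h1, dl_sum]
    have h4 : ∀ s ∈ (univ : Finset (Finset (Fin (n + 1)))).erase univ,
        dl (fun w => Q (s.piecewise (fun _ => w) (fun _ => a))) (List.replicate n a) x =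
          if s.card = n then (n.factorial : ℚ) * Q (fun _ => a) else 0 := by
      intro s hs
      have hs' : s.card < n + 1 := by
        have h4 : s ⊂ univ := Finset.ssubset_univ_iff.2 (Finset.mem_erase.1 hs).1
        have := Finset.card_lt_card h4
        rwa [Finset.card_univ, Fintype.card_fin] at this
      split_ifs with h
      · have h5 := ih (Q.restr s h a) a x
        have h6 : (Q.restr s h a) (fun _ => a) = Q (fun _ => a) := by
          show Q (fun j => if h : j ∈ s then a else a) = _
          congr 1
          funext j; split_ifs <;> rfl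
        rw [h6] at h5
        exact h5
      · exact dl_diag s.card (Q.restr s rfl a) (List.replicate n a) x (by
          rw [List.length_replicate]; omega)
    rw [Finset.sum_congr rfl h4, ← Finset.sum_filter, Finset.sum_const]
    have h5 : (((univ : Finset (Finset (Fin (n + 1)))).erase univ).filter
        (fun s => s.card = n)).card = n + 1 := by
      have h6 : ((univ : Finset (Finset (Fin (n + 1)))).erase univ).filter
          (fun s => s.card = n) = (univ : Finset (Fin (n + 1))).powersetCard n := by
        ext s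
        simp only [mem_filter, mem_erase, mem_univ, and_true, mem_powersetCard, subset_univ,
          true_and, and_iff_right_iff_imp]
        rintro h rfl
        rw [Finset.card_univ, Fintype.card_fin] at h
        omega
      rw [h6, card_powersetCard, Finset.card_univ, Fintype.card_fin, Nat.choose_succ_self_right]
    rw [h5, nsmul_eq_mul, Nat.factorial_succ]
    push_cast
    ring

/-- vanishing on a cube -/
theorem dl2_zero (f : V → V → ℚ) (L : List (V × V)) (x y : V)
    (h : ∀ ε : Fin L.length → Bool, f (x + ∑ i, if ε i then (L.get i).1 else 0)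
      (y + ∑ i, if ε i then (L.get i).2 else 0) = 0) : dl2 f L x y = 0 := by
  induction L generalizing x y with
  | nil =>
    have := h (fun _ => true)
    simpa [dl2] using this
  | cons p L ih =>
    have h2 : ∀ (δ : Fin (L.length + 1) → Bool) (F : Fin (L.length + 1) → V),
        (∑ i : Fin (L.length + 1), if δ i then F i else 0) = (if δ 0 then F 0 else 0) +
          ∑ i : Fin L.length, if δ i.succ then F i.succ else 0 := fun δ F => Fin.sum_univ_succ _
    have h3 : ∀ δ : Fin (L.length + 1) → Bool,
        f (x + ∑ i : Fin (L.length + 1), if δ i then ((p :: L).get i).1 else 0)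
        (y + ∑ i : Fin (L.length + 1), if δ i then ((p :: L).get i).2 else 0) = 0 := h
    rw [dl2_cons, ih, ih, sub_zero]
    · intro ε
      have h1 := h3 (Fin.cons (α := fun _ => Bool) false ε)
      rw [h2, h2] at h1
      simpa using h1
    · intro ε
      have h1 := h3 (Fin.cons (α := fun _ => Bool) true ε)
      rw [h2, h2, ← add_assoc, ← add_assoc] at h1
      simpa using h1

theorem sum_eraseIdx {α : Type} [DecidableEq α] (L : List α) (G : α → Multiset α → ℚ) :
    ∑ i : Fin L.length, G (L.get i) (↑(L.eraseIdx i)) =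
      ((L : Multiset α).map (fun p => G p ((L : Multiset α).erase p))).sum := by
  have h1 : ∀ i : Fin L.length, G (L.get i) (↑(L.eraseIdx i)) =
      (fun p => G p ((L : Multiset α).erase p)) (L[i.1]) := by
    intro i
    have h2 : (L : Multiset α) = L[i.1] ::ₘ (↑(L.eraseIdx i) : Multiset α) := by
      rw [Multiset.cons_coe, Multiset.coe_eq_coe]
      exact (List.getElem_cons_eraseIdx_perm i.2).symm
    dsimp only
    have h3 : (L : Multiset α).erase L[i.1] = (↑(L.eraseIdx i) : Multiset α) := by
      rw [h2]
      exact Multiset.erase_cons_head _ _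
    rw [h3]
    rfl
  rw [Finset.sum_congr rfl fun i _ => h1 i,
    Fin.sum_univ_fun_getElem L (fun p => G p ((L : Multiset α).erase p)), Multiset.map_coe,
    Multiset.sum_coe]

/-- the expansion as a sum over a multiset -/
theorem dl2_eq_sum [DecidableEq V] (Q : MultilinearMap ℤ (fun _ : Fin (m + 1) => V) (V →ₗ[ℤ] ℚ))
    (L : List (V × V)) (g h : V) (hL : L.length = m + 2) :
    dl2 (fun w v => Q (fun _ => w) v) L g h =
      ((L : Multiset (V × V)).map (fun p => SM (fun w => Q (fun _ => w) p.2)
        (((L : Multiset (V × V)).erase p).map Prod.fst))).sum := by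
  rw [pol2 m V Q L g h hL]
  exact sum_eraseIdx L (fun p M => SM (fun w => Q (fun _ => w) p.2) (M.map Prod.fst))

end A

section B

variable {V : Type} [AddCommGroup V] {m : ℕ} {Z : Type}

/-- the vectors of the pairs -/
def zv (e : Z → V) (dn : Z → ℕ) (p : Z × Z) : V := dn p.2 • e p.1 - dn p.1 • e p.2

/-- the normalised polarisation -/
noncomputable def sn (Q : MultilinearMap ℤ (fun _ : Fin (m + 1) => V) (V →ₗ[ℤ] ℚ)) (e : Z → V)
    (dn : Z → ℕ) (M : Multiset Z) (v : Z) : ℚ :=
  SM (fun w => Q (fun _ => w) (e v)) (M.map e) / ((M.map (fun z => (dn z : ℚ))).prod * dn v)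

theorem deg_diag (Q : MultilinearMap ℤ (fun _ : Fin (m + 1) => V) (V →ₗ[ℤ] ℚ)) (b : V)
    (L : List V) (x : V) (hL : L.length = m + 2) : dl (fun w => Q (fun _ => w) b) L x = 0 :=
  pol1 m V ((LinearMap.applyₗ b).compMultilinearMap Q) L x hL

theorem Dl_sn (Q : MultilinearMap ℤ (fun _ : Fin (m + 1) => V) (V →ₗ[ℤ] ℚ)) (e : Z → V)
    (dn : Z → ℕ) (hdn : ∀ z, dn z ≠ 0) (v : Z) : ∀ (P : List (Z × Z)) (M : Multiset Z),
    P.length + M.card = m + 1 →
    Dl (fun M => sn Q e dn M v) P M * ((P.map (fun p => (dn p.1 : ℚ) * dn p.2)).prod *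
      ((M.map (fun z => (dn z : ℚ))).prod * dn v)) =
    SM (fun w => Q (fun _ => w) (e v)) (↑(P.map (zv e dn)) + M.map e) := by
  intro P
  induction P with
  | nil =>
    intro M hM
    have h1 : (M.map (fun z => (dn z : ℚ))).prod ≠ 0 := by
      intro h
      rw [Multiset.prod_eq_zero_iff, Multiset.mem_map] at h
      obtain ⟨z, _, hz⟩ := h
      exact hdn z (by exact_mod_cast hz)
    have h2 : (dn v : ℚ) ≠ 0 := by exact_mod_cast hdn v
    simp only [Dl, sn, List.map_nil, List.prod_nil, one_mul, Multiset.coe_nil, zero_add]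
    field_simp
  | cons p P ih =>
    intro M hM
    rw [List.length_cons] at hM
    have h1 := ih (p.1 ::ₘ M) (by rw [Multiset.card_cons]; omega)
    have h2 := ih (p.2 ::ₘ M) (by rw [Multiset.card_cons]; omega)
    simp only [Multiset.map_cons, Multiset.prod_cons] at h1 h2
    have h3 : ∀ a : V, (↑(P.map (zv e dn)) + a ::ₘ M.map e : Multiset V) =
        a ::ₘ (↑(P.map (zv e dn)) + M.map e) := fun a => Multiset.add_cons _ _ _
    rw [h3] at h1 h2
    have hc : (↑(P.map (zv e dn)) + M.map e : Multiset V).card = m := by
      rw [Multiset.card_add, Multiset.coe_card, List.length_map, Multiset.card_map]; omega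
    have h4 : SM (fun w => Q (fun _ => w) (e v)) (↑((p :: P).map (zv e dn)) + M.map e) =
        dn p.2 * SM (fun w => Q (fun _ => w) (e v)) (e p.1 ::ₘ (↑(P.map (zv e dn)) + M.map e)) -
        dn p.1 * SM (fun w => Q (fun _ => w) (e v)) (e p.2 ::ₘ (↑(P.map (zv e dn)) + M.map e)) := by
      rw [List.map_cons, ← Multiset.cons_coe, Multiset.cons_add]
      have h5 := (SH (fun w => Q (fun _ => w) (e v)) (deg_diag Q (e v)) _ hc).map_sub
        (dn p.2 • e p.1) (dn p.1 • e p.2)
      rw [map_nsmul, map_nsmul] at h5
      simp only [SH_apply, nsmul_eq_mul] at h5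
      exact h5
    rw [h4, ← h1, ← h2, List.map_cons, List.prod_cons]
    simp only [Dl]
    ring

theorem comb_hyp [DecidableEq Z]
    (Q : MultilinearMap ℤ (fun _ : Fin (m + 1) => V) (V →ₗ[ℤ] ℚ)) (e : Z → V)
    (dn : Z → ℕ) (hdn : ∀ z, dn z ≠ 0) (P : List (Z × Z)) (N : Multiset Z)
    (hPN : P.length + N.card = m + 2) (g h : V)
    (h0 : dl2 (fun w v => Q (fun _ => w) v) (P.map (fun p => (zv e dn p, (0 : V))) ++
      N.toList.map (fun v => (e v, e v))) g h = 0) :
    (N.map (fun v => Dl (fun M => sn Q e dn M v) P (N.erase v))).sum = 0 := by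
  classical
  rw [dl2_eq_sum Q _ g h (by
    rw [List.length_append, List.length_map, List.length_map, Multiset.length_toList, hPN])] at h0
  -- the multiset
  set LP : Multiset (V × V) := ↑(P.map (fun p => (zv e dn p, (0 : V)))) with hLP
  have hL : (↑(P.map (fun p => (zv e dn p, (0 : V))) ++ N.toList.map (fun v => (e v, e v))) :
      Multiset (V × V)) = LP + N.map (fun v => (e v, e v)) := by
    rw [← Multiset.coe_add, ← Multiset.map_coe _ N.toList, Multiset.coe_toList]
  rw [hL, Multiset.map_add, Multiset.sum_add] at h0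
  have hz : (LP.map (fun p => SM (fun w => Q (fun _ => w) p.2)
      (((LP + N.map (fun v => (e v, e v))).erase p).map Prod.fst))).sum = 0 := by
    refine Multiset.sum_eq_zero fun x hx => ?_
    rw [Multiset.mem_map] at hx
    obtain ⟨p, hp, rfl⟩ := hx
    rw [hLP, Multiset.mem_coe, List.mem_map] at hp
    obtain ⟨q, _, rfl⟩ := hp
    dsimp only
    have : (fun w : V => Q (fun _ => w) 0) = fun _ => (0 : ℚ) := by
      funext w; rw [map_zero]
    rw [this]
    obtain ⟨l, hl⟩ := Quot.exists_rep ((((LP + N.map (fun v => (e v, e v))).erase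
      (zv e dn q, (0 : V))).map Prod.fst))
    rw [← hl]
    exact dl_zero_fun l 0
  rw [hz, zero_add, Multiset.map_map] at h0
  -- the constant
  set c : ℚ := (P.map (fun p => (dn p.1 : ℚ) * dn p.2)).prod *
    (N.map (fun z => (dn z : ℚ))).prod with hc
  have hc0 : c ≠ 0 := by
    rw [hc]
    refine mul_ne_zero ?_ ?_
    · intro h
      rw [List.prod_eq_zero_iff, List.mem_map] at h
      obtain ⟨p, _, hp⟩ := h
      rcases mul_eq_zero.1 hp with h | h
      · exact hdn _ (by exact_mod_cast h)
      · exact hdn _ (by exact_mod_cast h)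
    · intro h
      rw [Multiset.prod_eq_zero_iff, Multiset.mem_map] at h
      obtain ⟨z, _, hz⟩ := h
      exact hdn z (by exact_mod_cast hz)
  have key : (N.map (fun v => Dl (fun M => sn Q e dn M v) P (N.erase v))).sum * c = 0 := by
    rw [← Multiset.sum_map_mul_right, ← h0]
    refine congrArg Multiset.sum (Multiset.map_congr rfl fun v hv => ?_)
    have h1 := Dl_sn Q e dn hdn v P (N.erase v) (by
      rw [Multiset.card_erase_of_mem hv]
      have : 0 < N.card := Multiset.card_pos_iff_exists_mem.2 ⟨v, hv⟩
      rw [Nat.pred_eq_sub_one]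
      omega)
    have h2 : (N.map (fun z => (dn z : ℚ))).prod =
        ((N.erase v).map (fun z => (dn z : ℚ))).prod * dn v := by
      rw [← Multiset.prod_map_erase hv, mul_comm]
    rw [hc, h2, h1]
    simp only [Function.comp]
    congr 1
    have h3 : (LP + N.map (fun v => (e v, e v))).erase (e v, e v) =
        LP + (N.erase v).map (fun v => (e v, e v)) := by
      rw [Multiset.erase_add_right_pos _ (Multiset.mem_map_of_mem (fun v => (e v, e v)) hv),
        Multiset.map_erase_of_mem (fun v => (e v, e v)) N hv]
    rw [h3, Multiset.map_add, Multiset.map_map, hLP, Multiset.map_coe, List.map_map]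
    rfl
  exact (mul_eq_zero.1 key).resolve_right hc0

/-- from the generators to all vectors -/
theorem all_zero (Q : MultilinearMap ℤ (fun _ : Fin (m + 1) => V) (V →ₗ[ℤ] ℚ)) (e : Z → V)
    (hgen : ∀ φ : V →+ ℚ, (∀ z, φ (e z) = 0) → φ = 0)
    (h : ∀ (M : Multiset Z) (v : Z), M.card = m + 1 →
      SM (fun w => Q (fun _ => w) (e v)) (M.map e) = 0) (w v : V) : Q (fun _ => w) v = 0 := by
  have h1 : ∀ (A : Multiset V) (M : Multiset Z) (v : Z), A.card + M.card = m + 1 →
      SM (fun w => Q (fun _ => w) (e v)) (A + M.map e) = 0 := by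
    intro A
    induction A using Multiset.induction_on with
    | empty => intro M v hM; rw [zero_add]; exact h M v (by simpa using hM)
    | cons a A ih =>
      intro M v hM
      rw [Multiset.card_cons] at hM
      have hc : (A + M.map e).card = m := by
        rw [Multiset.card_add, Multiset.card_map]; omega
      have h2 := hgen (SH (fun w => Q (fun _ => w) (e v)) (deg_diag Q (e v)) _ hc) (by
        intro z
        rw [SH_apply]
        have h3 := ih (z ::ₘ M) v (by rw [Multiset.card_cons]; omega)
        rwa [Multiset.map_cons, Multiset.add_cons] at h3)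
      have h3 := DFunLike.congr_fun h2 a
      rw [SH_apply] at h3
      rw [Multiset.cons_add, h3]
      rfl
  have h2 : ∀ z : Z, Q (fun _ => w) (e z) = 0 := by
    intro z
    have h3 := h1 (↑(List.replicate (m + 1) w)) 0 z (by simp)
    rw [Multiset.map_zero, add_zero, SM_coe] at h3
    have h4 := dl_fact (m + 1) ((LinearMap.applyₗ (e z)).compMultilinearMap Q) w 0
    have h5 : ((m + 1).factorial : ℚ) * Q (fun _ => w) (e z) = 0 := by
      rw [← h3]; exact h4.symm
    exact (mul_eq_zero.1 h5).resolve_left (by exact_mod_cast (m + 1).factorial_ne_zero)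
  have h3 := hgen (Q (fun _ => w)).toAddMonoidHom h2
  exact DFunLike.congr_fun h3 v

end B

end Pool.Agent.T9h89.GF
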