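import Pool.Agent.T9h42.GF.Spec2
import Pool.Agent.T9h89.GF.EndA

/-!
# The endgame
-/

set_option autoImplicit false

namespace Pool.Agent.T9h89.GF

open Polynomial Finset H39Gon
open Pool.Agent.T9h42.GF

section C

theorem cl_mul {F : Type} [Field F] {a b : F} (ha : a ≠ 0) (hb : b ≠ 0) :
    cl (a * b) = cl a + cl b := by
  unfold cl
  rw [dif_neg (mul_ne_zero ha hb), dif_neg ha, dif_neg hb, ← ofMul_mul]
  congr 1; ext; rfl

theorem cl_one {F : Type} [Field F] : cl (1 : F) = 0 := by
  unfold cl
  rw [dif_neg one_ne_zero, ← ofMul_one]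
  congr 1; ext; rfl

variable {k : Type} [Field k] [Fintype k]

theorem am_ne {a : k[X]} (ha : a ≠ 0) : algebraMap k[X] (RatFunc k) a ≠ 0 :=
  RatFunc.algebraMap_ne_zero ha

theorem pc_mul {a b : k[X]} (ha : a ≠ 0) (hb : b ≠ 0) : pc (a * b) = pc a + pc b := by
  unfold pc
  rw [map_mul, cl_mul (am_ne ha) (am_ne hb)]

theorem pc_one : pc (1 : k[X]) = 0 := by
  unfold pc
  rw [map_one, cl_one]

theorem pc_pow {a : k[X]} (ha : a ≠ 0) (n : ℕ) : pc (a ^ n) = n • pc a := by
  induction n with
  | zero => rw [pow_zero, pc_one, zero_smul]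
  | succ n ih => rw [pow_succ, pc_mul (pow_ne_zero _ ha) ha, ih, succ_nsmul]

theorem pc_prod {ι : Type} (s : Finset ι) (f : ι → k[X]) (hf : ∀ i ∈ s, f i ≠ 0) :
    pc (∏ i ∈ s, f i) = ∑ i ∈ s, pc (f i) := by
  classical
  induction s using Finset.induction_on with
  | empty => rw [Finset.prod_empty, Finset.sum_empty, pc_one]
  | insert a s ha ih =>
    rw [Finset.prod_insert ha, Finset.sum_insert ha, pc_mul (hf a (mem_insert_self _ _))
      (Finset.prod_ne_zero_iff.2 fun i hi => hf i (mem_insert_of_mem hi)),
      ih fun i hi => hf i (mem_insert_of_mem hi)]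

variable (k) in
/-- monic irreducible polynomials -/
abbrev Zk : Type := {p : k[X] // p.Monic ∧ Irreducible p}

theorem exists_zk {π : k[X]} (h : Irreducible π) : ∃ z : Zk k, Associated π z.1 := by
  have h0 : π ≠ 0 := h.ne_zero
  have h1 : IsUnit (C (π.leadingCoeff)⁻¹) := isUnit_C.2 (by
    rw [isUnit_iff_ne_zero]; exact inv_ne_zero (leadingCoeff_ne_zero.2 h0))
  have h2 : Associated π (π * C (π.leadingCoeff)⁻¹) := ⟨h1.unit, rfl⟩
  exact ⟨⟨π * C (π.leadingCoeff)⁻¹, monic_mul_leadingCoeff_inv h0, h2.irreducible h⟩, h2⟩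

theorem zk_coprime {z v : Zk k} (h : z ≠ v) : IsCoprime z.1 v.1 := by
  rw [z.2.2.coprime_iff_not_dvd]
  intro hd
  apply h
  apply Subtype.ext
  exact eq_of_monic_of_associated z.2.1 v.2.1 (z.2.2.associated_of_dvd v.2.2 hd)

instance : Infinite (Zk k) := by
  by_contra hcon
  rw [not_infinite_iff_finite] at hcon
  have := Fintype.ofFinite (Zk k)
  set P : k[X] := ∏ z : Zk k, z.1 with hP
  have hP0 : P ≠ 0 := Finset.prod_ne_zero_iff.2 fun z _ => z.2.2.ne_zero
  have h1 : ¬ IsUnit (X * P + 1) := by
    intro h
    have h2 := natDegree_eq_zero_of_isUnit h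
    have h3 : (X * P + 1).natDegree = P.natDegree + 1 := by
      rw [← C_1, natDegree_add_C, natDegree_X_mul hP0]
    omega
  have h0 : X * P + 1 ≠ 0 := by
    intro h
    have h3 : (X * P + 1).natDegree = P.natDegree + 1 := by
      rw [← C_1, natDegree_add_C, natDegree_X_mul hP0]
    rw [h, natDegree_zero] at h3
    omega
  obtain ⟨π, hπ, hd⟩ := WfDvdMonoid.exists_irreducible_factor h1 h0
  obtain ⟨z, hz⟩ := exists_zk hπ
  have h4 : z.1 ∣ P := Finset.dvd_prod_of_mem _ (Finset.mem_univ z)
  have h5 : z.1 ∣ X * P + 1 := hz.symm.dvd.trans hd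
  have h6 : z.1 ∣ 1 := (dvd_add_right (h4.mul_left X)).1 h5
  exact z.2.2.not_isUnit (isUnit_of_dvd_one h6)

theorem fin_deg (w : ℕ) : Set.Finite {z : Zk k | z.1.natDegree ≤ w} := by
  have h1 : Finite (degreeLT k (w + 1)) :=
    (degreeLTEquiv k (w + 1)).toEquiv.finite_iff.2 inferInstance
  have h2 : Set.Finite ((degreeLT k (w + 1) : Submodule k k[X]) : Set k[X]) :=
    Set.toFinite _
  refine Set.Finite.subset (h2.preimage (Set.injOn_of_injective Subtype.val_injective)) ?_
  intro z hz
  show z.1 ∈ degreeLT k (w + 1)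
  rw [mem_degreeLT, ← natDegree_lt_iff_degree_lt z.2.2.ne_zero]
  exact Nat.lt_succ_of_le hz

/-- an additive map to the rationals which vanishes on the primes vanishes -/
theorem hom_zero (φ : UV (RatFunc k) →+ ℚ) (h : ∀ z : Zk k, φ (pc z.1) = 0) : φ = 0 := by
  have h1 : ∀ c : k, c ≠ 0 → φ (pc (C c)) = 0 := by
    intro c hc
    have h2 : (Fintype.card k - 1) • pc (C c) = 0 := by
      rw [← pc_pow (C_ne_zero.2 hc), ← C_pow, FiniteField.pow_card_sub_one_eq_one c hc, C_1, pc_one]
    have h3 := congrArg φ h2
    rw [map_nsmul, map_zero, nsmul_eq_mul] at h3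
    refine (mul_eq_zero.1 h3).resolve_left ?_
    have := Fintype.one_lt_card (α := k)
    exact_mod_cast (by omega : Fintype.card k - 1 ≠ 0)
  have h2 : ∀ p : k[X], p ≠ 0 → φ (pc p) = 0 := by
    intro p
    refine UniqueFactorizationMonoid.induction_on_prime p ?_ ?_ ?_
    · intro h; exact absurd rfl h
    · intro x hx _
      obtain ⟨r, hr, rfl⟩ := isUnit_iff.1 hx
      exact h1 r hr.ne_zero
    · intro a p ha hp ih hpa
      rw [pc_mul hp.ne_zero ha, map_add, ih ha, add_zero]
      obtain ⟨z, u, hz⟩ := exists_zk hp.irreducible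
      have h3 := h z
      obtain ⟨r, hr, hru⟩ := isUnit_iff.1 u.isUnit
      rw [← hz, pc_mul hp.ne_zero u.ne_zero, ← hru, map_add, h1 r hr.ne_zero, add_zero] at h3
      exact h3
  refine AddMonoidHom.ext fun v => ?_
  set f : RatFunc k := ((Additive.toMul v : (RatFunc k)ˣ) : RatFunc k) with hf
  have hf0 : f ≠ 0 := (Additive.toMul v).ne_zero
  have hv : v = cl f := by
    unfold cl
    rw [dif_neg hf0]
    apply Additive.toMul.injective
    exact Units.ext rfl
  have hnum : f.num ≠ 0 := RatFunc.num_ne_zero hf0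
  have h3 : cl f + pc f.denom = pc f.num := by
    have h4 : f * algebraMap k[X] (RatFunc k) f.denom = algebraMap k[X] (RatFunc k) f.num := by
      have h5 := RatFunc.num_div_denom f
      rw [div_eq_iff (am_ne f.denom_ne_zero)] at h5
      exact h5.symm
    unfold pc
    rw [← h4, cl_mul hf0 (am_ne f.denom_ne_zero)]
  have h4 := congrArg φ h3
  rw [map_add, h2 _ f.denom_ne_zero, h2 _ hnum, add_zero] at h4
  rw [hv, h4]
  rfl

end C

section D

variable {V : Type} [AddCommGroup V]

/-- vanishing on a cube -/
theorem dl2_zero' {T : Type} (z : T → V × V) (f : V → V → ℚ) (L : List T) (x y : V)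
    (h : ∀ ε : Fin L.length → Bool, f (x + ∑ i, if ε i then (z (L.get i)).1 else 0)
      (y + ∑ i, if ε i then (z (L.get i)).2 else 0) = 0) : dl2 f (L.map z) x y = 0 := by
  induction L generalizing x y with
  | nil =>
    have := h (fun _ => true)
    simpa [dl2] using this
  | cons p L ih =>
    have h2 : ∀ (δ : Fin (L.length + 1) → Bool) (F : Fin (L.length + 1) → V),
        (∑ i : Fin (L.length + 1), if δ i then F i else 0) = (if δ 0 then F 0 else 0) +
          ∑ i : Fin L.length, if δ i.succ then F i.succ else 0 := fun δ F => Fin.sum_univ_succ _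
    have h3 : ∀ δ : Fin (L.length + 1) → Bool,
        f (x + ∑ i : Fin (L.length + 1), if δ i then (z ((p :: L).get i)).1 else 0)
        (y + ∑ i : Fin (L.length + 1), if δ i then (z ((p :: L).get i)).2 else 0) = 0 := h
    rw [List.map_cons, dl2_cons, ih, ih, sub_zero]
    · intro ε
      have h1 := h3 (Fin.cons (α := fun _ => Bool) false ε)
      rw [h2, h2] at h1
      simpa using h1
    · intro ε
      have h1 := h3 (Fin.cons (α := fun _ => Bool) true ε)
      rw [h2, h2, ← add_assoc, ← add_assoc] at h1
      simpa using h1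

end D

section E

variable {k : Type} [Field k] [Fintype k]

/-- the items -/
abbrev Itm (k : Type) [Field k] [Fintype k] : Type := (Zk k × Zk k) ⊕ Zk k

/-- factors of `α` -/
noncomputable def αt : Itm k → Bool → k[X]
  | .inl p, b => p.1.1 * p.2.1 * (if b then p.1.1 ^ p.2.1.natDegree else p.2.1 ^ p.1.1.natDegree)
  | .inr _, _ => 1

/-- factors of `β` -/
noncomputable def βt : Itm k → Bool → k[X]
  | .inl _, _ => 1
  | .inr v, b => if b then v.1 else v.1 ^ 2

/-- the class of a prime -/
noncomputable def ek (z : Zk k) : UV (RatFunc k) := pc z.1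

/-- the degree -/
noncomputable def dk (z : Zk k) : ℕ := z.1.natDegree

/-- the vectors -/
noncomputable def zt : Itm k → UV (RatFunc k) × UV (RatFunc k)
  | .inl p => (zv ek dk p, 0)
  | .inr v => (ek v, ek v)

theorem dk_ne (z : Zk k) : dk z ≠ 0 := (z.2.2.natDegree_pos).ne'

theorem αt_monic (t : Itm k) (b : Bool) : (αt t b).Monic := by
  rcases t with p | v
  · simp only [αt]
    split_ifs
    · exact (p.1.2.1.mul p.2.2.1).mul (p.1.2.1.pow _)
    · exact (p.1.2.1.mul p.2.2.1).mul (p.2.2.1.pow _)
  · exact monic_one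

theorem βt_monic (t : Itm k) (b : Bool) : (βt t b).Monic := by
  rcases t with p | v
  · exact monic_one
  · simp only [βt]
    split_ifs
    · exact v.2.1
    · exact v.2.1.pow _

theorem αt_deg (t : Itm k) (b : Bool) : (αt t b).natDegree = (αt t true).natDegree := by
  rcases t with p | v
  · cases b
    · simp only [αt, if_true, Bool.false_eq_true, if_false]
      rw [(p.1.2.1.mul p.2.2.1).natDegree_mul (p.2.2.1.pow _),
        (p.1.2.1.mul p.2.2.1).natDegree_mul (p.1.2.1.pow _), p.1.2.1.natDegree_pow,
        p.2.2.1.natDegree_pow, mul_comm p.1.1.natDegree]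
    · rfl
  · rfl

theorem pc_rel1 (t : Itm k) (b : Bool) : (pc (αt t b) - pc (βt t b)) -
    (pc (αt t false) - pc (βt t false)) = if b then (zt t).1 else 0 := by
  rcases t with p | v
  · cases b
    · simp
    · have h1 : p.1.1 ≠ 0 := p.1.2.2.ne_zero
      have h2 : p.2.1 ≠ 0 := p.2.2.2.ne_zero
      simp only [αt, βt, zt, zv, ek, dk, if_true, Bool.false_eq_true, if_false]
      rw [pc_mul (mul_ne_zero h1 h2) (pow_ne_zero _ h1), pc_mul (mul_ne_zero h1 h2)
        (pow_ne_zero _ h2), pc_pow h1, pc_pow h2]
      abel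
  · cases b
    · simp
    · simp only [αt, βt, zt, ek, if_true, Bool.false_eq_true, if_false]
      rw [pc_pow v.2.2.ne_zero, two_nsmul]
      abel

theorem pc_rel2 (t : Itm k) (b : Bool) : pc (βt t false) - pc (βt t b) =
    if b then (zt t).2 else 0 := by
  rcases t with p | v
  · cases b <;> simp [βt, zt]
  · cases b
    · simp
    · simp only [βt, zt, ek, if_true, Bool.false_eq_true, if_false]
      rw [pc_pow v.2.2.ne_zero, two_nsmul]
      abel

/-- the primes of an item -/
def Kt (x : k[X]) : Itm k → Prop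
  | .inl p => IsCoprime x p.1.1 ∧ IsCoprime x p.2.1
  | .inr v => IsCoprime x v.1

theorem cop_iff (x : k[X]) (t : Itm k) (b : Bool) :
    (IsCoprime x (αt t b) ∧ IsCoprime x (βt t b)) ↔ Kt x t := by
  rcases t with p | v
  · simp only [αt, βt, Kt, isCoprime_one_right, and_true]
    cases b
    · simp only [Bool.false_eq_true, if_false, IsCoprime.mul_right_iff,
        IsCoprime.pow_right_iff (p.1.2.2.natDegree_pos)]
      tauto
    · simp only [if_true, IsCoprime.mul_right_iff,
        IsCoprime.pow_right_iff (p.2.2.2.natDegree_pos)]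
      tauto
  · simp only [αt, βt, Kt, isCoprime_one_right, true_and]
    cases b
    · simp only [Bool.false_eq_true, if_false, IsCoprime.pow_right_iff (Nat.succ_pos 1)]
    · simp only [if_true]

end E

theorem endGame : EndGame := by
  classical
  intro hComb _ _ hTP k _ _ m Q hQ w0 v0
  obtain ⟨w, hw⟩ := hTP k m
  refine all_zero Q (ek (k := k)) (fun φ hφ => hom_zero φ hφ) ?_ w0 v0
  have hs : ∀ (M : Multiset (Zk k)) (v : Zk k), M.card = m + 1 → sn Q ek dk M v = 0 := by
    refine hComb (Zk k) m (sn Q ek dk) ?_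
    intro P N hPN hN hdis
    -- the items
    set L0 : List (Itm k) := P.map Sum.inl ++ N.toList.map Sum.inr with hL0
    have hlen : L0.length = m + 2 := by
      rw [hL0, List.length_append, List.length_map, List.length_map, Multiset.length_toList, hPN]
    -- the background
    set occ : Zk k → Prop := fun z => (∃ p ∈ P, z = p.1 ∨ z = p.2) ∨ z ∈ N with hocc
    set S : Finset (Zk k) := (fin_deg (k := k) w).toFinset.filter (fun z => ¬ occ z) with hS
    set bg : k[X] := ∏ z ∈ S, z.1 with hbg
    have hbgm : bg.Monic := monic_prod_of_monic _ _ fun z _ => z.2.1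
    set α : (Fin L0.length → Bool) → k[X] := fun ε => bg * ∏ i, αt (L0.get i) (ε i) with hα
    set β : (Fin L0.length → Bool) → k[X] := fun ε => ∏ i, βt (L0.get i) (ε i) with hβ
    have hm1 : ∀ ε : Fin L0.length → Bool, (∏ i, αt (L0.get i) (ε i)).Monic := fun ε =>
      monic_prod_of_monic _ _ fun i _ => αt_monic _ _
    have hm2 : ∀ ε, (β ε).Monic := fun ε => monic_prod_of_monic _ _ fun i _ => βt_monic _ _
    have hmem : ∀ i : Fin L0.length, (∃ p ∈ P, L0.get i = Sum.inl p) ∨
        (∃ v ∈ N, L0.get i = Sum.inr v) := by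
      intro i
      have h0 : ∀ t ∈ L0, (∃ p ∈ P, Sum.inl p = t) ∨ (∃ v ∈ N.toList, Sum.inr v = t) := by
        intro t ht
        rwa [hL0, List.mem_append, List.mem_map, List.mem_map] at ht
      have h1 := h0 _ (List.get_mem L0 i)
      rcases h1 with ⟨p, hp, h⟩ | ⟨v, hv, h⟩
      · exact .inl ⟨p, hp, h.symm⟩
      · exact .inr ⟨v, Multiset.mem_toList.1 hv, h.symm⟩
    have hTPi := hw Q hQ (Fin L0.length → Bool) α β (α (fun _ => true)).natDegree (by
      rw [Fintype.card_fun, Fintype.card_bool, Fintype.card_fin, hlen]) ?_ ?_ ?_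
    · obtain ⟨a, b, c, _, _, _, hz⟩ := hTPi
      refine comb_hyp Q ek dk dk_ne P N hPN
        (pc a + pc bg - pc b + ∑ i, (pc (αt (L0.get i) false) - pc (βt (L0.get i) false)))
        (pc c - pc b - ∑ i, pc (βt (L0.get i) false)) ?_
      have hlist : P.map (fun p => (zv ek dk p, (0 : UV (RatFunc k)))) ++
          N.toList.map (fun v => (ek v, ek v)) = L0.map zt := by
        rw [hL0, List.map_append, List.map_map, List.map_map]; rfl
      rw [hlist]
      refine dl2_zero' zt _ L0 _ _ fun ε => ?_
      have h1 : pc (α ε) = pc bg + ∑ i, pc (αt (L0.get i) (ε i)) := by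
        rw [hα]
        simp only
        rw [pc_mul hbgm.ne_zero (hm1 ε).ne_zero, pc_prod _ _ fun i _ => (αt_monic _ _).ne_zero]
      have h2 : pc (β ε) = ∑ i, pc (βt (L0.get i) (ε i)) := by
        rw [hβ]
        simp only
        rw [pc_prod _ _ fun i _ => (βt_monic _ _).ne_zero]
      have h3 : pc a + pc bg - pc b + ∑ i, (pc (αt (L0.get i) false) - pc (βt (L0.get i) false)) +
          ∑ i, (if ε i then (zt (L0.get i)).1 else 0) = pc a + pc (α ε) - pc b - pc (β ε) := by
        rw [Finset.sum_congr rfl fun i _ => (pc_rel1 (L0.get i) (ε i)).symm, h1, h2]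
        simp only [Finset.sum_sub_distrib]
        abel
      have h4 : pc c - pc b - ∑ i, pc (βt (L0.get i) false) +
          ∑ i, (if ε i then (zt (L0.get i)).2 else 0) = pc c - pc b - pc (β ε) := by
        rw [Finset.sum_congr rfl fun i _ => (pc_rel2 (L0.get i) (ε i)).symm, h2]
        simp only [Finset.sum_sub_distrib]
        abel
      rw [h3, h4]
      exact hz ε
    · intro ε
      refine ⟨hbgm.mul (hm1 ε), hm2 ε, ?_, ?_⟩
      · -- coprime
        refine IsCoprime.mul_left ?_ ?_
        · refine IsCoprime.prod_left fun z hz => IsCoprime.prod_right fun i _ => ?_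
          have hz' : ¬ occ z := (mem_filter.1 hz).2
          rcases hmem i with ⟨p, hp, h⟩ | ⟨v, hv, h⟩
          · rw [h]; exact isCoprime_one_right
          · rw [h]
            have hzv : z ≠ v := fun h => hz' (.inr (h ▸ hv))
            have h1 := zk_coprime hzv
            simp only [βt]
            split_ifs
            · exact h1
            · exact h1.pow_right
        · refine IsCoprime.prod_left fun j _ => IsCoprime.prod_right fun i _ => ?_
          rcases hmem i with ⟨p, hp, h⟩ | ⟨v, hv, h⟩
          · rw [h]; exact isCoprime_one_right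
          · rcases hmem j with ⟨p, hp, h'⟩ | ⟨v', hv', h'⟩
            · rw [h, h']
              have hd := hdis p hp
              have h1 : IsCoprime p.1.1 v.1 := zk_coprime fun h => hd.1 (h ▸ hv)
              have h2 : IsCoprime p.2.1 v.1 := zk_coprime fun h => hd.2 (h ▸ hv)
              have h3 : IsCoprime (αt (Sum.inl p) (ε j)) v.1 := by
                simp only [αt]
                split_ifs
                · exact (h1.mul_left h2).mul_left h1.pow_left
                · exact (h1.mul_left h2).mul_left h2.pow_left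
              simp only [βt]
              split_ifs
              · exact h3
              · exact h3.pow_right
            · rw [h']; exact isCoprime_one_left
      · -- degree
        show (bg * ∏ i, αt (L0.get i) (ε i)).natDegree =
          (bg * ∏ i, αt (L0.get i) true).natDegree
        rw [hbgm.natDegree_mul (hm1 ε), hbgm.natDegree_mul (hm1 fun _ => true),
          natDegree_prod_of_monic _ _ fun i _ => αt_monic _ _,
          natDegree_prod_of_monic _ _ fun i _ => αt_monic _ _]
        congr 1
        exact Finset.sum_congr rfl fun i _ => αt_deg _ _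
    · intro ε π hπ hdeg
      obtain ⟨z, hz⟩ := exists_zk hπ
      refine hz.dvd.trans ?_
      have hdz : z.1.natDegree ≤ w := by
        rwa [← natDegree_eq_of_degree_eq (degree_eq_degree_of_associated hz)]
      by_cases ho : occ z
      · rcases ho with ⟨p, hp, h⟩ | h
        · obtain ⟨i, hi⟩ := List.mem_iff_get.1 (show (Sum.inl p : Itm k) ∈ L0 by
            rw [hL0, List.mem_append]
            exact .inl (List.mem_map_of_mem hp))
          have h1 : z.1 ∣ αt (L0.get i) (ε i) := by
            rw [hi]
            simp only [αt]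
            refine Dvd.dvd.mul_right ?_ _
            rcases h with h | h
            · rw [h]; exact dvd_mul_right _ _
            · rw [h]; exact dvd_mul_left _ _
          refine Dvd.dvd.mul_right (Dvd.dvd.mul_left ?_ _) _
          exact h1.trans (Finset.dvd_prod_of_mem (fun i => αt (L0.get i) (ε i))
            (Finset.mem_univ i))
        · obtain ⟨i, hi⟩ := List.mem_iff_get.1 (show (Sum.inr z : Itm k) ∈ L0 by
            rw [hL0, List.mem_append]
            exact .inr (List.mem_map_of_mem (Multiset.mem_toList.2 h)))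
          have h1 : z.1 ∣ βt (L0.get i) (ε i) := by
            rw [hi]
            simp only [βt]
            split_ifs
            · exact dvd_rfl
            · exact dvd_pow_self _ two_ne_zero
          refine Dvd.dvd.mul_left ?_ _
          exact h1.trans (Finset.dvd_prod_of_mem (fun i => βt (L0.get i) (ε i))
            (Finset.mem_univ i))
      · have hzS : z ∈ S := by
          rw [hS, mem_filter, Set.Finite.mem_toFinset]
          exact ⟨hdz, ho⟩
        refine Dvd.dvd.mul_right (Dvd.dvd.mul_right ?_ _) _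
        exact Finset.dvd_prod_of_mem (fun z : Zk k => z.1) hzS
    · have hiff : ∀ (ε : Fin L0.length → Bool) (x : k[X]), IsCoprime x (α ε * β ε) ↔
          IsCoprime x bg ∧ ∀ i, Kt x (L0.get i) := by
        intro ε x
        show IsCoprime x ((bg * ∏ i, αt (L0.get i) (ε i)) * ∏ i, βt (L0.get i) (ε i)) ↔ _
        rw [IsCoprime.mul_right_iff, IsCoprime.mul_right_iff, and_assoc]
        refine and_congr_right fun _ => ?_
        constructor
        · rintro ⟨h1, h2⟩ i
          rw [IsCoprime.prod_right_iff] at h1 h2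
          exact (cop_iff x _ _).1 ⟨h1 i (mem_univ i), h2 i (mem_univ i)⟩
        · intro h
          exact ⟨IsCoprime.prod_right fun i _ => ((cop_iff x _ _).2 (h i)).1,
            IsCoprime.prod_right fun i _ => ((cop_iff x _ _).2 (h i)).2⟩
      intro ε ε' x
      rw [hiff, hiff]
  intro M v hM
  have h1 := hs M v hM
  unfold sn at h1
  rcases div_eq_zero_iff.1 h1 with h | h
  · exact h
  · exfalso
    rcases mul_eq_zero.1 h with h | h
    · rw [Multiset.prod_eq_zero_iff, Multiset.mem_map] at h
      obtain ⟨z, _, hz⟩ := h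
      exact dk_ne z (by exact_mod_cast hz)
    · exact dk_ne v (by exact_mod_cast h)

end Pool.Agent.T9h89.GF
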