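import Pool.Agent.T9h42.GF.Spec

/-!
# Polarisation
-/

set_option autoImplicit false

namespace Pool.Agent.T9h89.GF

open Finset
open Pool.Agent.T9h42.GF

variable {V : Type} [AddCommGroup V]

theorem dl_cons (f : V → ℚ) (a : V) (L : List V) (x : V) :
    dl f (a :: L) x = dl f L (x + a) - dl f L x := rfl

theorem dl2_cons (f : V → V → ℚ) (p : V × V) (L : List (V × V)) (x y : V) :
    dl2 f (p :: L) x y = dl2 f L (x + p.1) (y + p.2) - dl2 f L x y := rfl

theorem dl_cons' (f : V → ℚ) (a : V) (L : List V) (x : V) :
    dl f (a :: L) x = dl (fun w => f (w + a) - f w) L x := by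
  induction L generalizing x with
  | nil => rfl
  | cons b L ih =>
    rw [dl_cons _ a, dl_cons _ b, dl_cons _ b, dl_cons _ b, ← ih, ← ih, dl_cons, dl_cons,
      add_right_comm x a b]
    ring

theorem dl_sum {ι : Type} (s : Finset ι) (f : ι → V → ℚ) (L : List V) (x : V) :
    dl (fun w => ∑ i ∈ s, f i w) L x = ∑ i ∈ s, dl (f i) L x := by
  induction L generalizing x with
  | nil => rfl
  | cons b L ih => simp only [dl_cons, ih, Finset.sum_sub_distrib]

theorem dl_add (f g : V → ℚ) (L : List V) (x : V) :
    dl (fun w => f w + g w) L x = dl f L x + dl g L x := by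
  induction L generalizing x with
  | nil => rfl
  | cons b L ih => simp only [dl_cons, ih]; ring

/-- differences of more than `n` increments of the diagonal of an `n`-linear map vanish -/
theorem dl_diag (n : ℕ) : ∀ (Q : MultilinearMap ℤ (fun _ : Fin n => V) ℚ) (L : List V) (x : V),
    n < L.length → dl (fun w => Q (fun _ => w)) L x = 0 := by
  classical
  induction n using Nat.strong_induction_on with
  | _ n ih =>
    intro Q L x hL
    cases L with
    | nil => simp at hL
    | cons a L =>
      rw [List.length_cons] at hL
      rw [dl_cons']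
      have h1 : (fun w : V => Q (fun _ => w + a) - Q (fun _ => w)) =
          fun w => ∑ s ∈ (univ : Finset (Finset (Fin n))).erase univ,
            Q.restr s rfl a (fun _ => w) := by
        funext w
        have h2 : Q (fun _ => w + a) = ∑ s : Finset (Fin n),
            Q (s.piecewise (fun _ => w) (fun _ => a)) :=
          Q.map_add_univ (fun _ => w) (fun _ => a)
        rw [h2, ← Finset.add_sum_erase _ _ (Finset.mem_univ (univ : Finset (Fin n)))]
        have h3 : (univ : Finset (Fin n)).piecewise (fun _ => w) (fun _ => a) =
            fun _ : Fin n => w := by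
          funext j; simp
        rw [h3, add_sub_cancel_left]
        refine Finset.sum_congr rfl fun s _ => ?_
        rfl
      rw [h1, dl_sum]
      refine Finset.sum_eq_zero fun s hs => ?_
      have hs' : s.card < n := by
        have h4 : s ⊂ univ := Finset.ssubset_univ_iff.2 (Finset.mem_erase.1 hs).1
        have := Finset.card_lt_card h4
        rwa [Finset.card_univ, Fintype.card_fin] at this
      exact ih s.card hs' _ L x (by omega)

theorem pol1 : Pol1 := by
  intro m V _ Q L x hL
  exact dl_diag (m + 1) Q L x (by omega)

/-- the general expansion -/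
theorem dl2_expand (f : V → V →ₗ[ℤ] ℚ) (L : List (V × V)) (x y : V) :
    dl2 (fun w v => f w v) L x y = dl (fun w => f w y) (L.map Prod.fst) x +
      ∑ i : Fin L.length,
        dl (fun w => f w (L.get i).2) ((L.eraseIdx i).map Prod.fst) (x + (L.get i).1) := by
  induction L generalizing x y with
  | nil => simp [dl2, dl]
  | cons p L ih =>
    rw [dl2_cons, ih, ih]
    have h1 : (fun w => f w (y + p.2)) = fun w => f w y + f w p.2 := by
      funext w; rw [map_add]
    rw [h1, dl_add]
    have h2 : ∑ i : Fin (p :: L).length, dl (fun w => f w ((p :: L).get i).2)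
        (((p :: L).eraseIdx i).map Prod.fst) (x + ((p :: L).get i).1) =
        dl (fun w => f w p.2) (L.map Prod.fst) (x + p.1) +
        ∑ i : Fin L.length, (dl (fun w => f w (L.get i).2) ((L.eraseIdx i).map Prod.fst)
          (x + (L.get i).1 + p.1) -
          dl (fun w => f w (L.get i).2) ((L.eraseIdx i).map Prod.fst) (x + (L.get i).1)) := by
      exact Fin.sum_univ_succ (n := L.length) (fun i : Fin (L.length + 1) =>
        dl (fun w => f w ((p :: L).get i).2)
        (((p :: L).eraseIdx i).map Prod.fst) (x + ((p :: L).get i).1))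
    rw [h2, Finset.sum_sub_distrib, List.map_cons, dl_cons]
    have h3 : ∀ i : Fin L.length, x + (L.get i).1 + p.1 = x + p.1 + (L.get i).1 :=
      fun i => add_right_comm _ _ _
    simp only [h3]
    ring

theorem pol2 : Pol2 := by
  intro m V _ Q L g h hL
  have h0 : ∀ (b : V) (L' : List V) (x : V), L'.length = m + 2 →
      dl (fun w => Q (fun _ => w) b) L' x = 0 := fun b L' x hL' =>
    pol1 m V ((LinearMap.applyₗ b).compMultilinearMap Q) L' x hL'
  rw [dl2_expand (fun w => Q (fun _ => w)) L g h, h0 h _ _ (by rw [List.length_map, hL]), zero_add]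
  refine Finset.sum_congr rfl fun i _ => ?_
  have h1 := h0 (L.get i).2 ((g + (L.get i).1) :: (L.eraseIdx i).map Prod.fst) 0 (by
    rw [List.length_cons, List.length_map, List.length_eraseIdx_of_lt i.2, hL]; omega)
  rw [dl_cons, zero_add] at h1
  linarith

end Pool.Agent.T9h89.GF
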